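import Pool.Agent.H12.QN.Stmts

set_option autoImplicit false

namespace Pool.QN

open Finset

namespace WEYaux

lemma norm_ee (t : ℝ) : ‖ee t‖ = 1 := by
  unfold ee; exact Complex.norm_exp_ofReal_mul_I _

lemma ee_add (s t : ℝ) : ee (s + t) = ee s * ee t := by
  unfold ee
  rw [← Complex.exp_add]; congr 1; push_cast; ring

lemma conj_ee (t : ℝ) : (starRingEnd ℂ) (ee t) = ee (-t) := by
  unfold ee
  rw [← Complex.exp_conj]
  congr 1
  rw [map_mul, Complex.conj_ofReal, Complex.conj_I]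
  push_cast
  ring

/-- the off-diagonal sum -/
noncomputable def RR (f : ℕ → ℂ) (L : ℕ) : ℂ :=
  ∑ h ∈ range L, ∑ l ∈ range (L - 1 - h), f (l + h + 1) * (starRingEnd ℂ) (f l)

lemma RR_succ (f : ℕ → ℂ) (L : ℕ) :
    RR f (L + 1) = RR f L + f L * (starRingEnd ℂ) (∑ k ∈ range L, f k) := by
  unfold RR
  rw [sum_range_succ]
  have h0 : L + 1 - 1 - L = 0 := by omega
  rw [h0, range_zero, sum_empty, add_zero, map_sum,
    ← sum_range_reflect (fun k => (starRingEnd ℂ) (f k)) L, mul_sum, ← sum_add_distrib]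
  refine sum_congr rfl fun h hh => ?_
  have hh' := mem_range.1 hh
  have h1 : L + 1 - 1 - h = (L - 1 - h) + 1 := by omega
  rw [h1, sum_range_succ]
  have h2 : L - 1 - h + h + 1 = L := by omega
  rw [h2]

lemma normsq_sum (f : ℕ → ℂ) (hf : ∀ k, ‖f k‖ = 1) (L : ℕ) :
    ‖∑ k ∈ range L, f k‖ ^ 2 = L + 2 * (RR f L).re := by
  induction L with
  | zero => simp [RR]
  | succ L ih =>
    rw [sum_range_succ, RR_succ, Complex.add_re]
    have e : ‖∑ k ∈ range L, f k + f L‖ ^ 2 = ‖∑ k ∈ range L, f k‖ ^ 2 + ‖f L‖ ^ 2 +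
        2 * (f L * (starRingEnd ℂ) (∑ k ∈ range L, f k)).re := by
      rw [← Complex.normSq_eq_norm_sq, ← Complex.normSq_eq_norm_sq, ← Complex.normSq_eq_norm_sq,
        Complex.normSq_add]
      simp only [Complex.mul_re, Complex.conj_re, Complex.conj_im]
      ring
    rw [e, ih, hf]
    push_cast
    ring

lemma Fj_nonneg (j : ℕ) (t : ℝ) : 0 ≤ Fj j t := by unfold Fj; positivity

lemma inner_eq (z t : ℝ) (M h : ℕ) :
    ‖∑ l ∈ range M, ee (((l + h : ℕ) : ℝ) * z + ((l + h : ℕ) : ℝ) ^ 2 * t) *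
      (starRingEnd ℂ) (ee ((l : ℝ) * z + (l : ℝ) ^ 2 * t))‖ = ‖DD M (2 * h * t)‖ := by
  have e : ∀ l : ℕ, ee (((l + h : ℕ) : ℝ) * z + ((l + h : ℕ) : ℝ) ^ 2 * t) *
      (starRingEnd ℂ) (ee ((l : ℝ) * z + (l : ℝ) ^ 2 * t)) =
      ee ((h : ℝ) * z + (h : ℝ) ^ 2 * t) * ee ((l : ℝ) * (2 * h * t)) := by
    intro l
    rw [conj_ee, ← ee_add, ← ee_add]
    congr 1
    push_cast
    ring
  rw [sum_congr rfl fun l _ => e l, ← mul_sum, norm_mul, norm_ee, one_mul]
  rfl

end WEYaux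

open WEYaux

theorem wey_thm (h1 : DIRStmt) : WEYStmt := by
  intro K L z t hLK
  rcases Nat.eq_zero_or_pos K with rfl | hK
  · have : L = 0 := by omega
    subst this
    simp [WW]
  obtain ⟨K', rfl⟩ : ∃ K', K = K' + 1 := ⟨K - 1, by omega⟩
  set J := Nat.clog 2 (K' + 1) with hJ
  have hKJ : K' + 1 ≤ 2 ^ J := Nat.le_pow_clog (by norm_num) _
  set G : ℕ → ℝ := fun h => ∑ j ∈ range (J + 1), Fj j (2 * (h : ℝ) * t) with hG
  have hG0 : ∀ h, 0 ≤ G h := fun h => sum_nonneg fun j _ => Fj_nonneg _ _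
  have hW : WW (K' + 1) t = ∑ h ∈ range K', G (h + 1) + G 0 := by
    unfold WW
    rw [sum_range_succ']
  have hG00 : ((K' + 1 : ℕ) : ℝ) ≤ G 0 := by
    have e1 : Fj J (2 * ((0 : ℕ) : ℝ) * t) = 2 ^ J := by
      unfold Fj DD
      have : ∀ n : ℕ, ee ((n : ℝ) * (2 * ((0 : ℕ) : ℝ) * t)) = 1 := by
        intro n
        unfold ee
        simp
      rw [sum_congr rfl fun n _ => this n]
      simp
      field_simp
    have e2 : Fj J (2 * ((0 : ℕ) : ℝ) * t) ≤ G 0 :=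
      single_le_sum (f := fun j => Fj j (2 * ((0 : ℕ) : ℝ) * t)) (fun j _ => Fj_nonneg _ _)
        (self_mem_range_succ J)
    rw [e1] at e2
    refine le_trans ?_ e2
    exact_mod_cast hKJ
  set f : ℕ → ℂ := fun k => ee ((k : ℝ) * z + (k : ℝ) ^ 2 * t) with hf
  have hS := normsq_sum f (fun k => norm_ee _) L
  have hR : (RR f L).re ≤ 16 * ∑ h ∈ range K', G (h + 1) := by
    refine le_trans (Complex.re_le_norm _) ?_
    unfold RR
    refine le_trans (norm_sum_le _ _) ?_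
    have hterm : ∀ h ∈ range L, ‖∑ l ∈ range (L - 1 - h), f (l + h + 1) * (starRingEnd ℂ) (f l)‖ ≤
        if h < K' then 16 * G (h + 1) else 0 := by
      intro h hh
      have hh' := mem_range.1 hh
      split_ifs with hc
      · have e := inner_eq z t (L - 1 - h) (h + 1)
        have e3 : ‖∑ l ∈ range (L - 1 - h), f (l + h + 1) * (starRingEnd ℂ) (f l)‖ =
            ‖DD (L - 1 - h) (2 * ((h + 1 : ℕ) : ℝ) * t)‖ := by
          rw [← e]
          rfl
        rw [e3]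
        exact h1 J (L - 1 - h) _ (by omega)
      · have h2 : L - 1 - h = 0 := by omega
        rw [h2]
        simp
    refine le_trans (sum_le_sum hterm) ?_
    rw [← sum_filter, ← mul_sum]
    refine mul_le_mul_of_nonneg_left ?_ (by norm_num)
    refine sum_le_sum_of_subset_of_nonneg ?_ fun i _ _ => hG0 _
    intro i hi
    exact mem_range.2 (mem_filter.1 hi).2
  have hLr : (L : ℝ) ≤ ((K' + 1 : ℕ) : ℝ) := by exact_mod_cast hLK
  show ‖∑ k ∈ range L, f k‖ ^ 2 ≤ 32 * WW (K' + 1) t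
  rw [hS, hW]
  have := hG0 0
  linarith

end Pool.QN
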