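import Pool.Agent.H79.QN.Stmts

/-!
Row AC4 of the board qn (helper88).
-/

set_option autoImplicit false

namespace Pool.Agent.H79.QN

theorem ac4 : S_AC4 := by
  intro W hW hc
  obtain ⟨b, hb, b', hb', hne⟩ := Finset.one_lt_card.1 (show 1 < W.card by omega)
  have hg : 0 < Int.gcd (b' - b).1 (b' - b).2 := by
    rw [Nat.pos_iff_ne_zero]
    intro h0
    rw [Int.gcd_eq_zero_iff] at h0
    apply hne
    have h1 : b'.1 - b.1 = 0 := h0.1
    have h2 : b'.2 - b.2 = 0 := h0.2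
    exact Prod.ext (by omega) (by omega)
  obtain ⟨d1, d2, hd, e1, e2⟩ := Int.exists_gcd_one hg
  set g : ℕ := Int.gcd (b' - b).1 (b' - b).2 with hgdef
  have hcop : IsCoprime d1 d2 := Int.isCoprime_iff_gcd_eq_one.2 hd
  refine ⟨(d1, d2), b, hcop, fun z hz => ?_⟩
  obtain ⟨u, v, huv⟩ := hcop
  have h3 := hc b hb b' hb' z hz
  unfold crs at h3
  rw [e1, e2] at h3
  have hg0 : (g : ℤ) ≠ 0 := by
    exact_mod_cast hg.ne'
  have h4 : d1 * (z.2 - b.2) = d2 * (z.1 - b.1) := by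
    have h5 : (g : ℤ) * (d1 * (z.2 - b.2) - d2 * (z.1 - b.1)) = 0 := by
      have h6 : (z - b).1 = z.1 - b.1 := rfl
      have h7 : (z - b).2 = z.2 - b.2 := rfl
      rw [h6, h7] at h3
      linear_combination h3
    have := (mul_eq_zero.1 h5).resolve_left hg0
    linarith
  refine ⟨u * (z.1 - b.1) + v * (z.2 - b.2), ?_, ?_⟩
  · show z.1 = b.1 + (u * (z.1 - b.1) + v * (z.2 - b.2)) * d1
    linear_combination (-(z.1 - b.1)) * huv - v * h4
  · show z.2 = b.2 + (u * (z.1 - b.1) + v * (z.2 - b.2)) * d2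
    linear_combination (-(z.2 - b.2)) * huv + u * h4

end Pool.Agent.H79.QN
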